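import Pool.Agent.CMR.RStep
import Pool.Agent.CMR.ZArt
import Pool.Agent.StarkU.ArtU

/-!
# Extensions of imaginary quadratic fields which are unramified outside N

`M/k` is unramified outside `N`, but prime numbers which are prime to `N` may be ramified in `k`.
-/

set_option autoImplicit false

noncomputable section

open NumberField Pool.Agent.StarkRQ Pool.Agent.CMR Pool.Agent.StarkU
open scoped Pointwise

namespace Pool.Agent.CMU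

section

variable (k M : Type) [Field k] [NumberField k] [Field M] [NumberField M] [Algebra k M]

/-- `N` is a modulus of the abelian extension `M/k`: `M/k` is unramified outside `N` and the Artin
symbol of `(a)` is trivial for `a ≡ 1` modulo `N`. -/
structure IsModU (N : ℕ) : Prop where
  unr : Unr k M N
  artin : ∀ a : 𝓞 k, a ≠ 0 → (N : 𝓞 k) ∣ a - 1 →
    HasArtinSymbol (Ideal.span {a}) (1 : Gal(M/k))

end

variable {k M : Type} [Field k] [NumberField k] [Field M] [NumberField M] [Algebra k M] {N : ℕ}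

theorem IsModU.toMod (h : IsModU k M N) {m : ℕ} (hN : N ∣ m)
    (hr : ∀ p : ℕ, p.Prime → (p : ℤ) ∣ discr M → p ∣ m) : IsMod k M m :=
  ⟨hr, fun a ha h1 => h.artin a ha (dvd_trans (Nat.cast_dvd_cast hN) h1)⟩

theorem unr_of_dvd {n m : ℕ} (h : n ∣ m) (h' : Unr k M n) : Unr k M m :=
  fun 𝔓 h1 h2 h3 => h' 𝔓 h1 h2 (Prm.of_dvd h h3)

/-- a prime over a prime ideal which is prime to `N` is prime to `N` -/
theorem prm_over {𝔮 : Ideal (𝓞 k)} (hp : Prm N 𝔮) {Q : Ideal (𝓞 M)} (hQ : Q.IsPrime)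
    (h : Q.comap (algebraMap (𝓞 k) (𝓞 M)) = 𝔮) : Prm N Q := by
  by_cases h0 : Q = ⊥
  · have h1 : 𝔮 = ⊥ := by
      rw [← h, h0, Ideal.comap_bot_of_injective _
        (FaithfulSMul.algebraMap_injective (𝓞 k) (𝓞 M))]
    have h2 : IsUnit (N : 𝓞 k) := by
      rw [Prm, h1, Ideal.isCoprime_iff_sup_eq, bot_sup_eq, Ideal.span_singleton_eq_top] at hp
      exact hp
    have h3 : IsUnit (N : 𝓞 M) := by
      have := h2.map (algebraMap (𝓞 k) (𝓞 M))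
      rwa [map_natCast] at this
    rw [Prm, Ideal.isCoprime_iff_sup_eq, Ideal.span_singleton_eq_top.2 h3, sup_top_eq]
  · have hmax : Q.IsMaximal := hQ.isMaximal h0
    rw [Prm, Ideal.isCoprime_iff_sup_eq]
    refine hmax.out.2 _ (lt_of_le_of_ne le_sup_left fun h1 => ?_)
    have h2 : (N : 𝓞 M) ∈ Q := by
      rw [h1]
      exact Ideal.mem_sup_right (Ideal.mem_span_singleton_self _)
    have h3 : (N : 𝓞 k) ∈ 𝔮 := by
      rw [← h, Ideal.mem_comap, map_natCast]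
      exact h2
    have h4 : 𝔮 ≠ ⊤ := by
      rw [← h]
      exact (hQ.comap _).ne_top
    apply h4
    rw [Prm, Ideal.isCoprime_iff_sup_eq] at hp
    rw [← hp]
    exact (sup_eq_left.2 ((Ideal.span_singleton_le_iff_mem _).2 h3)).symm

/-- the prime factors of an ideal prime to `N` are unramified in `M` -/
theorem unrAll_of (hu : Unr k M N) {𝔞 : Ideal (𝓞 k)} (hp : Prm N 𝔞) : UnrAll M 𝔞 := by
  intro 𝔮 h1 h2 h3 Q hQ hQ𝔮
  obtain ⟨𝔟, rfl⟩ := h3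
  have h4 : Prm N 𝔮 := ((prm_mul_iff _ _).1 hp).1
  have h5 : Q ≠ ⊥ := by
    rintro rfl
    apply h2
    rw [← hQ𝔮, Ideal.comap_bot_of_injective _
      (FaithfulSMul.algebraMap_injective (𝓞 k) (𝓞 M))]
  have h6 := hu Q hQ h5 (prm_over h4 hQ hQ𝔮)
  rwa [hQ𝔮] at h6

section

variable [IsGalois ℚ M] [IsAbelianGalois k M]

omit [NumberField k] [NumberField M] [IsGalois ℚ M] in
private theorem gal_comm (σ τ : Gal(M/k)) : σ * τ = τ * σ :=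
  IsMulCommutative.is_comm.comm σ τ

theorem artU_iff (hu : Unr k M N) {𝔞 : Ideal (𝓞 k)} (h0 : 𝔞 ≠ ⊥) (hp : Prm N 𝔞)
    (σ : Gal(M/k)) : HasArtinSymbol 𝔞 σ ↔ σ = art 𝔞 :=
  artU_spec gal_comm h0 (unrAll_of hu hp) σ

theorem artU_mul' (hu : Unr k M N) {𝔞 𝔟 : Ideal (𝓞 k)} (h0 : 𝔞 ≠ ⊥) (h0' : 𝔟 ≠ ⊥)
    (hp : Prm N 𝔞) (hp' : Prm N 𝔟) : art (𝔞 * 𝔟) = (art 𝔞 * art 𝔟 : Gal(M/k)) :=
  artU_mul gal_comm h0 h0' (unrAll_of hu hp) (unrAll_of hu hp')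

theorem art_iff (hm : IsModU k M N) {𝔞 : Ideal (𝓞 k)} (h0 : 𝔞 ≠ ⊥) (hp : Prm N 𝔞)
    (σ : Gal(M/k)) : HasArtinSymbol 𝔞 σ ↔ σ = art 𝔞 :=
  artU_iff hm.unr h0 hp σ

theorem art_mul_of (hm : IsModU k M N) {𝔞 𝔟 : Ideal (𝓞 k)} (h0 : 𝔞 ≠ ⊥) (h0' : 𝔟 ≠ ⊥)
    (hp : Prm N 𝔞) (hp' : Prm N 𝔟) : art (𝔞 * 𝔟) = (art 𝔞 * art 𝔟 : Gal(M/k)) :=
  artU_mul' hm.unr h0 h0' hp hp'

/-- the Artin symbol depends only on the ray class -/
theorem art_eq_of_REq (hm : IsModU k M N) {𝔞 𝔟 : Ideal (𝓞 k)} (h0 : 𝔞 ≠ ⊥) (h0' : 𝔟 ≠ ⊥)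
    (hp : Prm N 𝔞) (hp' : Prm N 𝔟) (h : REq N 𝔞 𝔟) : (art 𝔞 : Gal(M/k)) = art 𝔟 := by
  obtain ⟨a, b, ha0, hb0, ha, hb, hab⟩ := h
  have h1 : ∀ c : 𝓞 k, c ≠ 0 → (N : 𝓞 k) ∣ c - 1 → ∀ 𝔠 : Ideal (𝓞 k), 𝔠 ≠ ⊥ → Prm N 𝔠 →
      art (Ideal.span {c} * 𝔠) = (art 𝔠 : Gal(M/k)) := by
    intro c hc0 hc 𝔠 h𝔠 h𝔠p
    have h2 : Ideal.span {c} ≠ ⊥ := by
      rw [Ne, Ideal.span_singleton_eq_bot]
      exact hc0
    rw [art_mul_of hm h2 h𝔠 (prm_span hc) h𝔠p,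
      ← (art_iff hm h2 (prm_span hc) 1).1 (hm.artin c hc0 hc), one_mul]
  rw [← h1 a ha0 ha 𝔞 h0 hp, hab, h1 b hb0 hb 𝔟 h0' hp']

/-- every element of the Galois group is the Artin symbol of an ideal prime to `m` -/
theorem art_surj (hm : IsModU k M N) {m : ℕ} (hm0 : m ≠ 0) (hN : N ∣ m) (σ : Gal(M/k)) :
    ∃ 𝔠 : Ideal (𝓞 k), 𝔠 ≠ ⊥ ∧ Prm m 𝔠 ∧ art 𝔠 = σ := by
  have hD : (discr M).natAbs ≠ 0 := Int.natAbs_ne_zero.2 (discr_ne_zero M)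
  have hm' : IsMod k M (m * (discr M).natAbs) := hm.toMod (hN.mul_right _) fun p _ h =>
    (Int.natCast_dvd.1 h).mul_left _
  obtain ⟨𝔠, h1, h2, h3⟩ := CMR.art_surj hm' (Nat.mul_ne_zero hm0 hD) dvd_rfl σ
  exact ⟨𝔠, h1, h2.of_dvd (dvd_mul_right _ _), h3⟩

end

end Pool.Agent.CMU
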