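import Pool.Agent.CMU.AStark
import Pool.Agent.CMU.GY
import Pool.Agent.CMU.VY
import Pool.Agent.CMU.ZPart
import Pool.Agent.CMR.KFin
import Pool.Agent.CMR.KEps

/-!
# F-MAIN existence of the data and the final theorem for imaginary quadratic fields

`exists_YData`: `G` from `exists_isCls`, `y 𝔠` from `exists_y`. `Z_𝔤`: `exists_rect`, `exists_reps`, `exists_eps` for `LatI 𝔤`, `𝔤` prime to `N` (`1/N ∉ LatI 𝔤`). `cont`: `partial_zeta`. `ne_zero`: `UU_ne_zero`. `kron`: `deriv_partial_zeta` for `Z` and `Z'`;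
`Z'(0) = ∑_{art 𝔤 = σ} Z_𝔤'(0)`, `Z''(0) = ∑_{art 𝔤 = σ art 𝔠} Z_𝔤'(0) = ∑_{art 𝔤 = σ} Z_{𝔤𝔠}'(0)`: the permutation `π` of `G` with `π 𝔤 ~ 𝔤𝔠` (`IsCls.perm`), and the Epstein zeta functions at `1/N` of `LatI (π 𝔤)` and `LatI (𝔤𝔠)`
have the same derivative at `0` (homothety `c = b₀/a₀` with `c/N ≡ 1/N`: the series differ by the factor `|c|^{-2s}` and the value at `0` is `0`); `kron` (`KFin`) for `LatI 𝔤 ⊆ LatI (𝔤𝔠)`, `idx_LatI`, gives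
`N𝔠 Z_𝔤'(0) - Z_{𝔤𝔠}'(0) = -2 log |UU N 𝔠 𝔤|`; add up. `symm`: apply `ι` (injective): `ι(y 𝔠) = ∏_{art 𝔤 = 1} UU 𝔠 𝔤`, `ι(art 𝔠 (y 𝔡)) = ∏_{art 𝔤 = art 𝔠} UU 𝔡 𝔤 = ∏_{art 𝔤 = 1} UU 𝔡 (𝔤𝔠)` (permutation, `UU_congr_class`); `UU_mul`.
`val`, `val_one`: `val_y`. `exists_stark_iq`: `Algebra k ℂ` by `ι ∘ algebraMap`; `N ≥ 3`: `exists_stark_of_YData` with `m = 6N`. For `N = 2` use `N' = 4`: `IsModU k M 4` follows from `IsModU k M 2`, and `IsStarkUnit k ι 4 η` is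
`IsStarkUnit k ι 2 η` (`zcoeff` depends only on the primes dividing `N`), `IsPrimePow 2`.
-/

set_option autoImplicit false

noncomputable section

open NumberField Pool.Agent.StarkRQ Pool.Agent.CMR
open scoped PeriodPair

namespace Pool.Agent.CMU

private theorem fm_not_dvd {k : Type} [Field k] [NumberField k] {N : ℕ} (hN : 2 ≤ N) :
    ¬ (N : 𝓞 k) ∣ (1 : 𝓞 k) := by
  intro h
  have h1 : IsUnit (N : 𝓞 k) := isUnit_of_dvd_one h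
  have h2 := Ideal.absNorm_span_natCast (S := 𝓞 k) N
  rw [Ideal.span_singleton_eq_top.2 h1, Ideal.absNorm_top, RingOfIntegers.rank] at h2
  have h3 : 0 < Module.finrank ℚ k := Module.finrank_pos
  have h4 : 1 < N ^ Module.finrank ℚ k := Nat.one_lt_pow h3.ne' hN
  omega

private theorem fm_mul_ne {k : Type} [Field k] [NumberField k] {𝔤 𝔠 : Ideal (𝓞 k)}
    (h𝔤 : 𝔤 ≠ ⊥) (h𝔠 : 𝔠 ≠ ⊥) : 𝔤 * 𝔠 ≠ ⊥ := by
  rw [← Ideal.zero_eq_bot] at *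
  exact mul_ne_zero h𝔤 h𝔠

/-- Epstein zeta functions and homotheties -/
private theorem fm_homo {L M : PeriodPair} {c z : ℂ} (hc : c ≠ 0)
    (h : ∀ w, c * w ∈ M.lattice ↔ w ∈ L.lattice) (hz : c * z - z ∈ M.lattice) {Z W : ℂ → ℂ}
    (hZ : IsEps L z Z) (hW : IsEps M z W) : deriv Z 0 = deriv W 0 := by
  have hc1 : 0 < ‖c‖ := norm_pos_iff.2 hc
  have hc2 : (0 : ℝ) < ‖c‖ ^ 2 := by positivity
  have hcC : ((‖c‖ ^ 2 : ℝ) : ℂ) ≠ 0 := by exact_mod_cast hc2.ne'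
  have hdc : Differentiable ℂ (fun s : ℂ => ((‖c‖ ^ 2 : ℝ) : ℂ) ^ (-s)) := by
    intro s
    exact (differentiableAt_id.neg).const_cpow (Or.inl hcC)
  have hV : IsEps M z (fun s => ((‖c‖ ^ 2 : ℝ) : ℂ) ^ (-s) * Z s) := by
    refine ⟨hdc.differentiableOn.mul hZ.diff, ?_, ?_⟩
    · intro s hs
      have h1 := (hZ.sum s hs).mul_left (((‖c‖ ^ 2 : ℝ) : ℂ) ^ (-s))
      let e : L.lattice ≃ M.lattice :=
        { toFun := fun l => ⟨c * l + (c * z - z), M.lattice.add_mem ((h l).2 l.2) hz⟩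
          invFun := fun m => ⟨c⁻¹ * ((m : ℂ) - (c * z - z)), by
            rw [← h, mul_inv_cancel_left₀ hc]
            exact M.lattice.sub_mem m.2 hz⟩
          left_inv := fun l => by
            ext
            simp only [add_sub_cancel_right]
            exact inv_mul_cancel_left₀ hc _
          right_inv := fun m => by
            ext
            simp only []
            rw [mul_inv_cancel_left₀ hc]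
            ring }
      rw [← e.hasSum_iff]
      refine h1.congr_fun fun l => ?_
      show ((‖z + (c * (l : ℂ) + (c * z - z))‖ ^ 2 : ℝ) : ℂ) ^ (-s) = _
      have h2 : z + (c * l + (c * z - z)) = c * (z + l) := by ring
      rw [h2, norm_mul, mul_pow, Complex.ofReal_mul,
        Complex.mul_cpow_ofReal_nonneg (by positivity) (by positivity)]
    · show _ * Z 0 = 0
      rw [hZ.zero, mul_zero]
  rw [hW.deriv_eq hV]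
  have hd : DifferentiableAt ℂ Z 0 :=
    hZ.diff.differentiableAt (isOpen_compl_singleton.mem_nhds (by simp))
  rw [deriv_fun_mul (hdc 0) hd, hZ.zero, mul_zero, zero_add, neg_zero, Complex.cpow_zero, one_mul]

section

variable {k : Type} [Field k] [NumberField k] [Algebra k ℂ]

private theorem fm_notMem (hk : IsIQ k) {N : ℕ} (hN : 2 ≤ N) {𝔤 : Ideal (𝓞 k)} (h0 : 𝔤 ≠ ⊥)
    (hp : Prm N 𝔤) : ptt N (1 : 𝓞 k) ∉ (LatI 𝔤).lattice := by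
  rw [ptt_mem_iff hk (by omega) h0 hp]
  exact fm_not_dvd hN

private theorem fm_class (hk : IsIQ k) {N : ℕ} (hN : N ≠ 0) {𝔤 𝔥 : Ideal (𝓞 k)} (h0 : 𝔤 ≠ ⊥)
    (h0' : 𝔥 ≠ ⊥) (h : REq N 𝔤 𝔥) {Z W : ℂ → ℂ}
    (hZ : IsEps (LatI 𝔤) (ptt N (1 : 𝓞 k)) Z) (hW : IsEps (LatI 𝔥) (ptt N (1 : 𝓞 k)) W) :
    deriv Z 0 = deriv W 0 := by
  obtain ⟨a, b, ha, hb, ha1, hb1, hab⟩ := h
  have ha' : (a : k) ≠ 0 := by rwa [Ne, RingOfIntegers.coe_eq_zero_iff]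
  have hb' : (b : k) ≠ 0 := by rwa [Ne, RingOfIntegers.coe_eq_zero_iff]
  have hN' : (N : k) ≠ 0 := by exact_mod_cast hN
  refine fm_homo (c := algebraMap k ℂ (b : k) / algebraMap k ℂ (a : k))
    (div_ne_zero ((map_ne_zero _).2 hb') ((map_ne_zero _).2 ha'))
    (LatI_homothety hk h0 ha hb hab) ?_ hZ hW
  rw [mem_LatI hk h0']
  refine ⟨(b / a : k) * (1 / N) - 1 / N, by simp [ptt], fun g hg => ?_⟩
  have h1 : b * g ∈ Ideal.span {a} * 𝔤 := by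
    rw [hab]
    exact Ideal.mul_mem_mul (Ideal.mem_span_singleton_self b) hg
  obtain ⟨g', -, h2⟩ := Ideal.mem_span_singleton_mul.1 h1
  have h3 : (N : 𝓞 k) ∣ g' - g := by
    have h4 : g' - g = (b - 1) * g - (a - 1) * g' := by linear_combination h2
    rw [h4]
    exact dvd_sub (hb1.mul_right _) (ha1.mul_right _)
  obtain ⟨y, hy⟩ := h3
  refine ⟨y, ?_⟩
  have h5 : (a : k) * (g' : k) = b * g := by exact_mod_cast congrArg (algebraMap (𝓞 k) k) h2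
  have h6 : (g' : k) - g = N * y := by
    have := congrArg (algebraMap (𝓞 k) k) hy
    rwa [map_sub, map_mul, map_natCast] at this
  field_simp
  linear_combination a * h6 - h5

end

section

variable {k : Type} [Field k] [NumberField k]
  {M : Type} [Field M] [NumberField M] [Algebra k M] [IsGalois ℚ M] [IsAbelianGalois k M] {N : ℕ}

private theorem fm_perm (hm : IsModU k M N) {G : Finset (Ideal (𝓞 k))} (hG : IsCls N G)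
    (hN : N ≠ 0) {𝔥 : Ideal (𝓞 k)} (h0 : 𝔥 ≠ ⊥) (hp : Prm N 𝔥) :
    ∃ π : Equiv.Perm G, ∀ 𝔤 : G, REq N ((𝔤 : Ideal (𝓞 k)) * 𝔥) (π 𝔤) ∧
      ∀ σ : Gal(M/k), (art (π 𝔤 : Ideal (𝓞 k)) : Gal(M/k)) = σ * art 𝔥 ↔
        (art (𝔤 : Ideal (𝓞 k)) : Gal(M/k)) = σ := by
  obtain ⟨π, hπ⟩ := hG.perm hN h0 hp
  refine ⟨π, fun 𝔤 => ⟨hπ 𝔤, fun σ => ?_⟩⟩
  have h1 := art_eq_of_REq hm (fm_mul_ne (hG.ne 𝔤 𝔤.2) h0) (hG.ne _ (π 𝔤).2)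
    ((prm_mul_iff _ _).2 ⟨hG.prm 𝔤 𝔤.2, hp⟩) (hG.prm _ (π 𝔤).2) (hπ 𝔤)
  rw [← h1, art_mul_of hm (hG.ne 𝔤 𝔤.2) h0 (hG.prm 𝔤 𝔤.2) hp, mul_left_inj]

private theorem fm_shift_prod (hm : IsModU k M N) {G : Finset (Ideal (𝓞 k))} (hG : IsCls N G)
    (hN : N ≠ 0) {𝔥 : Ideal (𝓞 k)} (h0 : 𝔥 ≠ ⊥) (hp : Prm N 𝔥) {A : Type*} [CommMonoid A]
    (f : Ideal (𝓞 k) → A) (hf : ∀ 𝔤 𝔤' : Ideal (𝓞 k), 𝔤 ≠ ⊥ → 𝔤' ≠ ⊥ → Prm N 𝔤 → Prm N 𝔤' →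
      REq N 𝔤 𝔤' → f 𝔤 = f 𝔤') (σ : Gal(M/k)) :
    (∏ 𝔤 ∈ G, open Classical in if (art 𝔤 : Gal(M/k)) = σ * art 𝔥 then f 𝔤 else 1) =
      ∏ 𝔤 ∈ G, open Classical in if (art 𝔤 : Gal(M/k)) = σ then f (𝔤 * 𝔥) else 1 := by
  classical
  obtain ⟨π, hπ⟩ := fm_perm hm hG hN h0 hp
  rw [← Finset.prod_coe_sort G (fun 𝔤 : Ideal (𝓞 k) =>
      if (art 𝔤 : Gal(M/k)) = σ * art 𝔥 then f 𝔤 else 1),
    ← Finset.prod_coe_sort G (fun 𝔤 : Ideal (𝓞 k) =>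
      if (art 𝔤 : Gal(M/k)) = σ then f (𝔤 * 𝔥) else 1), ← Equiv.prod_comp π]
  refine Finset.prod_congr rfl fun 𝔤 _ => ?_
  have h1 := (hπ 𝔤).2 σ
  by_cases h2 : (art (𝔤 : Ideal (𝓞 k)) : Gal(M/k)) = σ
  · rw [if_pos h2, if_pos (h1.2 h2)]
    exact (hf _ _ (fm_mul_ne (hG.ne 𝔤 𝔤.2) h0) (hG.ne _ (π 𝔤).2)
      ((prm_mul_iff _ _).2 ⟨hG.prm 𝔤 𝔤.2, hp⟩) (hG.prm _ (π 𝔤).2) (hπ 𝔤).1).symm
  · rw [if_neg h2, if_neg fun h => h2 (h1.1 h)]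

private theorem fm_shift_sum (hm : IsModU k M N) {G : Finset (Ideal (𝓞 k))} (hG : IsCls N G)
    (hN : N ≠ 0) {𝔥 : Ideal (𝓞 k)} (h0 : 𝔥 ≠ ⊥) (hp : Prm N 𝔥) {A : Type*} [AddCommMonoid A]
    (f : Ideal (𝓞 k) → A) (hf : ∀ 𝔤 𝔤' : Ideal (𝓞 k), 𝔤 ≠ ⊥ → 𝔤' ≠ ⊥ → Prm N 𝔤 → Prm N 𝔤' →
      REq N 𝔤 𝔤' → f 𝔤 = f 𝔤') (σ : Gal(M/k)) :
    (∑ 𝔤 ∈ G, open Classical in if (art 𝔤 : Gal(M/k)) = σ * art 𝔥 then f 𝔤 else 0) =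
      ∑ 𝔤 ∈ G, open Classical in if (art 𝔤 : Gal(M/k)) = σ then f (𝔤 * 𝔥) else 0 := by
  classical
  obtain ⟨π, hπ⟩ := fm_perm hm hG hN h0 hp
  rw [← Finset.sum_coe_sort G (fun 𝔤 : Ideal (𝓞 k) =>
      if (art 𝔤 : Gal(M/k)) = σ * art 𝔥 then f 𝔤 else 0),
    ← Finset.sum_coe_sort G (fun 𝔤 : Ideal (𝓞 k) =>
      if (art 𝔤 : Gal(M/k)) = σ then f (𝔤 * 𝔥) else 0), ← Equiv.sum_comp π]
  refine Finset.sum_congr rfl fun 𝔤 _ => ?_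
  have h1 := (hπ 𝔤).2 σ
  by_cases h2 : (art (𝔤 : Ideal (𝓞 k)) : Gal(M/k)) = σ
  · rw [if_pos h2, if_pos (h1.2 h2)]
    exact (hf _ _ (fm_mul_ne (hG.ne 𝔤 𝔤.2) h0) (hG.ne _ (π 𝔤).2)
      ((prm_mul_iff _ _).2 ⟨hG.prm 𝔤 𝔤.2, hp⟩) (hG.prm _ (π 𝔤).2) (hπ 𝔤).1).symm
  · rw [if_neg h2, if_neg fun h => h2 (h1.1 h)]

end

/-- the data for the construction of Stark units exist -/
theorem exists_YData {k : Type} [Field k] [NumberField k] [Algebra k ℂ] (hk : IsIQ k) {N : ℕ}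
    (hN : 3 ≤ N) {M : Type} [Field M] [NumberField M] [Algebra k M] [IsGalois ℚ M]
    [IsAbelianGalois k M] (ι : M →+* ℂ) (hι : ∀ x : k, ι (algebraMap k M x) = algebraMap k ℂ x)
    (hmod : IsModU k M N) : ∃ y : Ideal (𝓞 k) → M, YData (k := k) ι N (6 * N) y := by
  classical
  have hN0 : N ≠ 0 := by omega
  have hN2 : 2 ≤ N := by omega
  obtain ⟨G, hG⟩ := exists_isCls (k := k) hN0
  obtain ⟨r, hr, hrect⟩ := exists_rect hk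
  have h6 : ∀ 𝔠 : Ideal (𝓞 k), Prm (6 * N) 𝔠 → (Ideal.absNorm 𝔠).Coprime 6 := fun 𝔠 h =>
    (prm_iff 𝔠).1 ((prm_mul_left_iff 𝔠).1 h).1
  have hpN : ∀ 𝔠 : Ideal (𝓞 k), Prm (6 * N) 𝔠 → Prm N 𝔠 := fun 𝔠 h =>
    ((prm_mul_left_iff 𝔠).1 h).2
  have hy : ∀ 𝔠 : Ideal (𝓞 k), ∃ y : M, 𝔠 ≠ ⊥ → Prm (6 * N) 𝔠 →
      ∀ σ : Gal(M/k), ι (σ y) = ∏ 𝔤 ∈ G, open Classical in
        if (art 𝔤 : Gal(M/k)) = σ then UU N 𝔠 𝔤 else 1 := by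
    intro 𝔠
    by_cases h : 𝔠 ≠ ⊥ ∧ Prm (6 * N) 𝔠
    · obtain ⟨y, hy⟩ := exists_y hk hN2 ι hι hmod hG h.1 h.2
      exact ⟨y, fun _ _ => hy⟩
    · exact ⟨0, fun h1 h2 => absurd ⟨h1, h2⟩ h⟩
  choose y hy using hy
  have hZ : ∀ 𝔤 : Ideal (𝓞 k), ∃ Z : ℂ → ℂ, 𝔤 ≠ ⊥ → Prm N 𝔤 →
      IsEps (LatI 𝔤) (ptt N (1 : 𝓞 k)) Z := by
    intro 𝔤
    by_cases h : 𝔤 ≠ ⊥ ∧ Prm N 𝔤
    · obtain ⟨Q, hQ⟩ := exists_reps (hrect 𝔤 h.1)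
      obtain ⟨Z, hZ, -⟩ := exists_eps hr hQ (fm_notMem hk hN2 h.1 h.2)
      exact ⟨Z, fun _ _ => hZ⟩
    · exact ⟨0, fun h1 h2 => absurd ⟨h1, h2⟩ h⟩
  choose Zg hZg using hZ
  have hZG : ∀ 𝔤 ∈ G, IsEps (LatI 𝔤) (ptt N (1 : 𝓞 k)) (Zg 𝔤) := fun 𝔤 h =>
    hZg 𝔤 (hG.ne 𝔤 h) (hG.prm 𝔤 h)
  have hval := fun (𝔠 : Ideal (𝓞 k)) (hc0 : 𝔠 ≠ ⊥) (hc : Prm (6 * N) 𝔠) =>
    val_y hk hN2 ι hι hmod hG hc0 hc (hy 𝔠 hc0 hc)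
  have hUU : ∀ 𝔠 : Ideal (𝓞 k), 𝔠 ≠ ⊥ → Prm (6 * N) 𝔠 → ∀ 𝔤 ∈ G, UU N 𝔠 𝔤 ≠ 0 :=
    fun 𝔠 hc0 hc 𝔤 h => UU_ne_zero hk hN2 hc0 (h6 𝔠 hc) (hpN 𝔠 hc) (hG.ne 𝔤 h) (hG.prm 𝔤 h)
  refine ⟨y, ?_, ?_, ?_, ?_, fun 𝔠 hc0 hc => (hval 𝔠 hc0 hc).1,
    fun hpp 𝔠 hc0 hc => (hval 𝔠 hc0 hc).2 hpp⟩
  · intro 𝔠 hc0 hc h0
    have h1 := hy 𝔠 hc0 hc 1
    rw [h0, map_zero, map_zero] at h1
    refine (Finset.prod_ne_zero_iff.2 fun 𝔤 h𝔤 => ?_) h1.symm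
    split_ifs
    · exact hUU 𝔠 hc0 hc 𝔤 h𝔤
    · exact one_ne_zero
  · intro σ
    exact ⟨_, partial_zeta hk hN hmod hG hZG σ⟩
  · intro 𝔠 hc0 hc σ Z Z' hZ hZ'
    rw [deriv_partial_zeta hk hN hmod hG hZG hZ, deriv_partial_zeta hk hN hmod hG hZG hZ',
      fm_shift_sum hmod hG hN0 hc0 (hpN 𝔠 hc) (fun 𝔤 => deriv (Zg 𝔤) 0)
        (fun 𝔤 𝔤' h1 h2 h3 h4 h5 => fm_class hk hN0 h1 h2 h5 (hZg 𝔤 h1 h3) (hZg 𝔤' h2 h4)) σ,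
      hy 𝔠 hc0 hc σ, Finset.mul_sum, ← Finset.sum_sub_distrib, norm_prod, ← Finset.prod_pow,
      Real.log_prod, ← Finset.sum_neg_distrib, Complex.ofReal_sum]
    · refine Finset.sum_congr rfl fun 𝔤 h𝔤 => ?_
      split_ifs with h1
      · have h0 := hG.ne 𝔤 h𝔤
        have hp := hG.prm 𝔤 h𝔤
        have h0' := fm_mul_ne h0 hc0
        have hp' := (prm_mul_iff 𝔤 𝔠).2 ⟨hp, hpN 𝔠 hc⟩
        have h2 := kron hr (hrect 𝔤 h0) (LatI_le hk h0 hc0)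
          (by rw [idx_LatI hk h0 hc0]; exact h6 𝔠 hc) (fm_notMem hk hN2 h0' hp')
          (hZg 𝔤 h0 hp) (hZg (𝔤 * 𝔠) h0' hp')
        rw [idx_LatI hk h0 hc0] at h2
        rw [h2, Real.log_pow]
        push_cast
        rw [UU]
        ring
      · simp
    · intro 𝔤 h𝔤
      refine pow_ne_zero _ (norm_ne_zero_iff.2 ?_)
      split_ifs
      · exact hUU 𝔠 hc0 hc 𝔤 h𝔤
      · exact one_ne_zero
  · intro 𝔠 𝔡 hc0 hc hd0 hd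
    have key : ∀ 𝔠 𝔡 : Ideal (𝓞 k), 𝔠 ≠ ⊥ → Prm (6 * N) 𝔠 → 𝔡 ≠ ⊥ → Prm (6 * N) 𝔡 →
        ι (y 𝔠 ^ Ideal.absNorm 𝔡 * (art 𝔠 : Gal(M/k)) (y 𝔡)) = ∏ 𝔤 ∈ G, open Classical in
          if (art 𝔤 : Gal(M/k)) = 1 then
            UU N 𝔠 𝔤 ^ Ideal.absNorm 𝔡 * UU N 𝔡 (𝔤 * 𝔠) else 1 := by
      intro 𝔠 𝔡 hc0 hc hd0 hd
      have h1 : ι (y 𝔠) = ∏ 𝔤 ∈ G, open Classical in
          if (art 𝔤 : Gal(M/k)) = 1 then UU N 𝔠 𝔤 else 1 := hy 𝔠 hc0 hc 1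
      have h2 := hy 𝔡 hd0 hd (1 * art 𝔠)
      rw [fm_shift_prod hmod hG hN0 hc0 (hpN 𝔠 hc) (fun 𝔤 => UU N 𝔡 𝔤)
        (fun 𝔤 𝔤' h1 h2 h3 h4 h5 => UU_congr_class hk hN0 hd0 (h6 𝔡 hd) h1 h2 h3 h4 h5) 1,
        one_mul] at h2
      rw [map_mul, map_pow, h1, h2, ← Finset.prod_pow, ← Finset.prod_mul_distrib]
      refine Finset.prod_congr rfl fun 𝔤 _ => ?_
      split_ifs
      · rfl
      · rw [one_pow, one_mul]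
    apply ι.injective
    rw [key 𝔠 𝔡 hc0 hc hd0 hd, key 𝔡 𝔠 hd0 hd hc0 hc]
    refine Finset.prod_congr rfl fun 𝔤 h𝔤 => ?_
    split_ifs
    · exact UU_mul hk hN2 hc0 (h6 𝔠 hc) (hpN 𝔠 hc) hd0 (h6 𝔡 hd) (hpN 𝔡 hd) (hG.ne 𝔤 h𝔤)
        (hG.prm 𝔤 h𝔤)
    · rfl

/-- the data for a multiple -/
theorem _root_.Pool.Agent.CMR.YData.of_dvd {k M : Type} [Field k] [NumberField k] [Field M]
    [NumberField M] [Algebra k M] {ι : M →+* ℂ} {N m m' : ℕ} {y : Ideal (𝓞 k) → M}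
    (hy : YData ι N m y) (h : m ∣ m') : YData ι N m' y :=
  ⟨fun 𝔠 h1 h2 => hy.ne_zero 𝔠 h1 (Prm.of_dvd h h2), hy.cont,
    fun 𝔠 h1 h2 => hy.kron 𝔠 h1 (Prm.of_dvd h h2),
    fun 𝔠 𝔡 h1 h2 h3 h4 => hy.symm 𝔠 𝔡 h1 (Prm.of_dvd h h2) h3 (Prm.of_dvd h h4),
    fun 𝔠 h1 h2 => hy.val 𝔠 h1 (Prm.of_dvd h h2),
    fun h0 𝔠 h1 h2 => hy.val_one h0 𝔠 h1 (Prm.of_dvd h h2)⟩

private theorem fm_cop (n : ℕ) : n.Coprime 4 ↔ n.Coprime 2 := by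
  have h : (4 : ℕ) = 2 ^ 2 := by norm_num
  rw [h, Nat.coprime_pow_right_iff (by norm_num)]

private theorem fm_zeta {k M : Type} [Field k] [NumberField k] [Field M] [NumberField M]
    [Algebra k M] {σ : Gal(M/k)} {Z : ℂ → ℂ} (h : IsPartialZeta 4 σ Z) : IsPartialZeta 2 σ Z := by
  refine ⟨h.1, fun s hs => ?_⟩
  have h1 : (fun n => (zcoeff 4 σ n : ℂ)) = fun n => (zcoeff 2 σ n : ℂ) := by
    funext n
    simp only [zcoeff, fm_cop]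
  rw [h.2 s hs, h1]

/-- Stark's theorem: existence of Stark units over imaginary quadratic fields -/
theorem exists_stark_iq {k : Type} [Field k] [NumberField k] (hk : IsIQ k) {N : ℕ} (hN : 2 ≤ N)
    {M : Type} [Field M] [NumberField M] [Algebra k M] [IsGalois ℚ M] [IsAbelianGalois k M]
    (ι : M →+* ℂ) (hmod : IsModU k M N) :
    ∃ η : M, IsStarkUnit k ι N η ∧ (¬ IsPrimePow N → IsIntegral ℤ η ∧ IsIntegral ℤ η⁻¹) := by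
  have key : ∀ N : ℕ, 3 ≤ N → IsModU k M N →
      ∃ η : M, IsStarkUnit k ι N η ∧ (¬ IsPrimePow N → IsIntegral ℤ η ∧ IsIntegral ℤ η⁻¹) := by
    intro N hN hmod
    let _ : Algebra k ℂ := (ι.comp (algebraMap k M)).toAlgebra
    obtain ⟨y, hy⟩ := exists_YData hk hN ι (fun x => rfl) hmod
    have hD : (discr M).natAbs ≠ 0 := Int.natAbs_ne_zero.2 (discr_ne_zero M)
    have hm' : IsMod k M (6 * N * (discr M).natAbs) :=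
      hmod.toMod ((dvd_mul_left N 6).mul_right _) fun p _ h => (Int.natCast_dvd.1 h).mul_left _
    have h2 : 2 ∣ 6 * N * (discr M).natAbs := (Dvd.intro (3 * N) (by ring)).mul_right _
    exact exists_stark_of_YData ι hm' (Nat.mul_ne_zero (by omega) hD) h2
      (hy.of_dvd (dvd_mul_right _ _))
  rcases Nat.lt_or_ge 2 N with h | h
  · exact key N h hmod
  · obtain rfl : N = 2 := by omega
    have h4 : IsModU k M 4 := by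
      refine ⟨unr_of_dvd (by norm_num) hmod.unr, fun a ha h1 => ?_⟩
      refine hmod.artin a ha (dvd_trans ⟨2, ?_⟩ h1)
      push_cast
      norm_num
    obtain ⟨η, h1, -⟩ := key 4 (by norm_num) h4
    refine ⟨η, ⟨h1.ne_zero, h1.isIntegral, fun σ => ?_, h1.abelian⟩, fun h2 => ?_⟩
    · obtain ⟨Z, hZ, hd⟩ := h1.deriv_zeta σ
      exact ⟨Z, fm_zeta hZ, hd⟩
    · exact absurd Nat.prime_two.isPrimePow h2

end Pool.Agent.CMU
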