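import Pool.Agent.CMU.RStep

/-!
# R-AB reciprocity up to finitely many primes for abelian extensions

`L/k` is Galois and abelian (a subextension of `M/k`). For every `g ∈ Gal(L/k)`, `g ≠ 1`, there is a subgroup `H` of `Gal(L/k)` with cyclic quotient and `g ∉ H` (the kernel of a character with value `≠ 1` at `g`: `CommGroup.exists_apply_ne_one_of_hasEnoughRootsOfUnity`; the quotient embeds into `ℂˣ`, finite subgroups of it are cyclic). Apply `step_cyclic` to the fixed fields `L_H`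
of all such `H` (finitely many), `N`, `M`: `a_H, B_H`; `a = max a_H` (`REq.of_dvd`), `B = N ∏ B_H`. `IsNm L N 𝔠 → IsNm L_H N 𝔠`: if `𝔓` of `L` has `N𝔓 = N𝔭` then `𝔓 ∩ L_H` too (`N𝔭 ≤ N(𝔓 ∩ L_H) ≤ N𝔓`, residue fields). So `art 𝔟` fixes all `L_H`; its restriction `g` to `L` is in every `H`, so `g = 1`. `Algebra L_H M`: through `L`.
-/

set_option autoImplicit false

noncomputable section

open NumberField Pool.Agent.StarkRQ Pool.Agent.CMR Pool.Agent.StarkU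
open scoped Pointwise

namespace Pool.Agent.CMU

open scoped IsMulCommutative in
private theorem rab_char {G : Type} [Group G] [Finite G] [IsMulCommutative G] {g : G}
    (hg : g ≠ 1) : ∃ (H : Subgroup G) (_ : H.Normal), g ∉ H ∧ IsCyclic (G ⧸ H) := by
  have hne : NeZero (Monoid.exponent G) := ⟨Monoid.exponent_ne_zero_of_finite⟩
  have hne' : NeZero ((Monoid.exponent G : ℕ) : ℂ) := ⟨Nat.cast_ne_zero.2 hne.1⟩
  obtain ⟨χ, hχ⟩ := CommGroup.exists_apply_ne_one_of_hasEnoughRootsOfUnity G ℂ hg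
  refine ⟨χ.ker, inferInstance, fun h => hχ ((MonoidHom.mem_ker).1 h), ?_⟩
  exact isCyclic_of_injective_ringHom ((Units.coeHom ℂ).comp (QuotientGroup.kerLift χ))
    (Units.val_injective.comp (QuotientGroup.kerLift_injective χ))

private lemma rab_comap_ne {k E : Type} [Field k] [NumberField k] [Field E] [NumberField E]
    [Algebra k E] {𝔮 : Ideal (𝓞 E)} (h0 : 𝔮 ≠ ⊥) :
    𝔮.comap (algebraMap (𝓞 k) (𝓞 E)) ≠ ⊥ := by
  intro h
  have h1 : ((Ideal.absNorm 𝔮 : ℕ) : 𝓞 k) ∈ 𝔮.comap (algebraMap (𝓞 k) (𝓞 E)) := by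
    rw [Ideal.mem_comap, map_natCast]
    exact Ideal.absNorm_mem 𝔮
  rw [h, Ideal.mem_bot, Nat.cast_eq_zero, Ideal.absNorm_eq_zero_iff] at h1
  exact h0 h1

private lemma rab_norm_le {k E : Type} [Field k] [NumberField k] [Field E] [NumberField E]
    [Algebra k E] {𝔮 : Ideal (𝓞 E)} (h0 : 𝔮 ≠ ⊥) :
    Ideal.absNorm (𝔮.comap (algebraMap (𝓞 k) (𝓞 E))) ≤ Ideal.absNorm 𝔮 := by
  have hfin : Finite (𝓞 E ⧸ 𝔮) := Ideal.finiteQuotientOfFreeOfNeBot 𝔮 h0
  have hfin' : Finite (𝓞 k ⧸ 𝔮.comap (algebraMap (𝓞 k) (𝓞 E))) :=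
    Ideal.finiteQuotientOfFreeOfNeBot _ (rab_comap_ne h0)
  rw [Ideal.absNorm_apply, Submodule.cardQuot_apply, Ideal.absNorm_apply, Submodule.cardQuot_apply]
  exact Nat.card_le_card_of_injective
    (Ideal.quotientMap 𝔮 (algebraMap (𝓞 k) (𝓞 E)) le_rfl) (Ideal.quotientMap_injective)

private theorem rab_nm {k L : Type} [Field k] [NumberField k] [Field L] [NumberField L]
    [Algebra k L] (E : IntermediateField k L) {N : ℕ} {𝔠 : Ideal (𝓞 k)} (h : IsNm L N 𝔠) :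
    IsNm E N 𝔠 := by
  obtain ⟨l, hl, h⟩ := h
  refine ⟨l, hl, fun 𝔭 h𝔭 => ?_⟩
  obtain ⟨𝔓, hP, hP0, hPN, hc, hn⟩ := h 𝔭 h𝔭
  have hcc : (𝔓.comap (algebraMap (𝓞 E) (𝓞 L))).comap (algebraMap (𝓞 k) (𝓞 E)) = 𝔭 := by
    rw [← hc, Ideal.comap_comap]
    congr 1
  have hP' := rab_comap_ne (k := E) hP0
  have h1 := rab_norm_le (k := E) hP0
  have h2 := rab_norm_le (k := k) hP'
  rw [hcc] at h2
  have h3 : Ideal.absNorm (𝔓.comap (algebraMap (𝓞 E) (𝓞 L))) = Ideal.absNorm 𝔭 :=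
    le_antisymm (h1.trans hn.le) h2
  refine ⟨𝔓.comap (algebraMap (𝓞 E) (𝓞 L)), Ideal.comap_isPrime _ _, hP', ?_, hcc, h3⟩
  rw [prm_iff, h3, ← hn, ← prm_iff]
  exact hPN

/-- Artin reciprocity for abelian `L/k`, up to finitely many primes -/
theorem step_abelian {k L M : Type} [Field k] [NumberField k] (hk : IsIQ k) [Field L]
    [NumberField L] [Field M] [NumberField M] [Algebra k L] [Algebra L M] [Algebra k M]
    [IsScalarTower k L M] [IsGalois ℚ M] [IsAbelianGalois k M] {N : ℕ} (hN : 2 ≤ N)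
    (hu : Unr k M N) :
    ∃ a B : ℕ, 1 ≤ a ∧ B ≠ 0 ∧ N ∣ B ∧ ∀ 𝔟 𝔠 : Ideal (𝓞 k), 𝔟 ≠ ⊥ → Prm B 𝔟 →
      IsNm L N 𝔠 → REq (N ^ a) 𝔟 𝔠 →
      ∀ x : L, (art 𝔟 : Gal(M/k)) (algebraMap L M x) = algebraMap L M x := by
  classical
  have hL : IsAbelianGalois k L := IsAbelianGalois.tower_bot k L M
  have hex : ∀ H : Subgroup Gal(L/k), ∃ a B : ℕ, 1 ≤ a ∧ B ≠ 0 ∧ N ∣ B ∧
      (IsCyclic Gal(IntermediateField.fixedField H/k) → ∀ 𝔟 𝔠 : Ideal (𝓞 k), 𝔟 ≠ ⊥ → Prm B 𝔟 →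
        IsNm (IntermediateField.fixedField H) N 𝔠 → REq (N ^ a) 𝔟 𝔠 →
        ∀ x : IntermediateField.fixedField H,
          (art 𝔟 : Gal(M/k)) (algebraMap L M x) = algebraMap L M x) := by
    intro H
    by_cases hc : IsCyclic Gal(IntermediateField.fixedField H/k)
    · obtain ⟨σ, hσ⟩ := IsCyclic.exists_generator (α := Gal(IntermediateField.fixedField H/k))
      obtain ⟨a, B, h1, h2, h3, h4⟩ := step_cyclic (k := k)
        (L := IntermediateField.fixedField H) (M := M) hk σ hσ hN hu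
      exact ⟨a, B, h1, h2, h3, fun _ 𝔟 𝔠 h5 h6 h7 h8 x => h4 𝔟 𝔠 h5 h6 h7 h8 x⟩
    · exact ⟨1, N, le_rfl, by omega, dvd_rfl, fun h => absurd h hc⟩
  choose a B ha hB hNB hex using hex
  have hfin : Fintype (Subgroup Gal(L/k)) := Fintype.ofFinite _
  refine ⟨∑ H, a H, ∏ H, B H, ?_, ?_, ?_, ?_⟩
  · exact (ha ⊥).trans (Finset.single_le_sum (fun _ _ => Nat.zero_le _) (Finset.mem_univ ⊥))
  · exact Finset.prod_ne_zero_iff.2 fun H _ => hB H
  · exact (hNB ⊥).trans (Finset.dvd_prod_of_mem B (Finset.mem_univ ⊥))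
  · intro 𝔟 𝔠 h0 hp hnm hreq x
    set g : Gal(L/k) := (art 𝔟 : Gal(M/k)).restrictNormal L with hg
    have hcomm : ∀ x : L, algebraMap L M (g x) = (art 𝔟 : Gal(M/k)) (algebraMap L M x) :=
      fun x => AlgEquiv.restrictNormal_commutes _ L x
    suffices h1 : g = 1 by
      rw [← hcomm, h1]
      rfl
    by_contra hne
    obtain ⟨H, hH, hgH, hcyc⟩ := rab_char hne
    have hcyc' : IsCyclic Gal(IntermediateField.fixedField H/k) := by
      have h2 := IsGalois.normalAutEquivQuotient H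
      exact isCyclic_of_surjective h2 h2.surjective
    apply hgH
    rw [← IntermediateField.fixingSubgroup_fixedField H, IntermediateField.mem_fixingSubgroup_iff]
    intro y hy
    have h3 := hex H hcyc' 𝔟 𝔠 h0 (Prm.of_dvd (Finset.dvd_prod_of_mem B (Finset.mem_univ H)) hp)
      (rab_nm _ hnm) (REq.of_dvd (pow_dvd_pow N (Finset.single_le_sum
        (fun _ _ => Nat.zero_le _) (Finset.mem_univ H))) hreq) ⟨y, hy⟩
    have h4 : algebraMap L M (g y) = algebraMap L M y := (hcomm y).trans h3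
    exact (algebraMap L M).injective h4

end Pool.Agent.CMU
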