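import Pool.Agent.CMU.Defs
import Pool.Agent.CMR.RCyc

/-!
# Relative ramification: subfields, roots of unity, restriction

`unr_of_inertia`: an extension is unramified outside `N` if the inertia groups are trivial.
`unr_cyc`: an element of the inertia group of a prime of `M(ζ)` which does not divide `N m` is
trivial on `M` and on `ζ`.
-/

set_option autoImplicit false

noncomputable section

open NumberField Pool.Agent.StarkRQ Pool.Agent.CMR Pool.Agent.StarkU
open scoped Pointwise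

namespace Pool.Agent.CMU

/-- subfields -/
theorem unr_sub {k L M : Type} [Field k] [NumberField k] [Field L] [NumberField L]
    [Field M] [NumberField M] [Algebra k L] [Algebra L M] [Algebra k M] [IsScalarTower k L M]
    {N : ℕ} (hu : Unr k M N) : Unr k L N := by
  intro 𝔓 h𝔓 h0 hp h2
  obtain ⟨Q, hQ, hQ𝔓⟩ := Ideal.exists_ideal_over_prime_of_isIntegral_of_isDomain (S := 𝓞 M)
    𝔓 (by
      rw [(RingHom.injective_iff_ker_eq_bot _).1 (FaithfulSMul.algebraMap_injective (𝓞 L) (𝓞 M))]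
      exact bot_le)
  have hQ0 : Q ≠ ⊥ := by
    rintro rfl
    apply h0
    rw [← hQ𝔓, Ideal.comap_bot_of_injective _ (FaithfulSMul.algebraMap_injective (𝓞 L) (𝓞 M))]
  have hcc : Q.comap (algebraMap (𝓞 k) (𝓞 M)) = 𝔓.comap (algebraMap (𝓞 k) (𝓞 L)) := by
    rw [← hQ𝔓, Ideal.comap_comap, ← IsScalarTower.algebraMap_eq]
  refine hu Q hQ hQ0 (prm_over hp hQ hQ𝔓) ?_
  rw [hcc]
  have h3 : (𝔓.comap (algebraMap (𝓞 k) (𝓞 L))).map (algebraMap (𝓞 k) (𝓞 M)) =
      ((𝔓.comap (algebraMap (𝓞 k) (𝓞 L))).map (algebraMap (𝓞 k) (𝓞 L))).map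
        (algebraMap (𝓞 L) (𝓞 M)) := by
    rw [Ideal.map_map, ← IsScalarTower.algebraMap_eq]
  rw [h3]
  have h4 : (𝔓 ^ 2).map (algebraMap (𝓞 L) (𝓞 M)) ∣
      ((𝔓.comap (algebraMap (𝓞 k) (𝓞 L))).map (algebraMap (𝓞 k) (𝓞 L))).map
        (algebraMap (𝓞 L) (𝓞 M)) := by
    obtain ⟨J, hJ⟩ := h2
    rw [hJ, Ideal.map_mul]
    exact dvd_mul_right _ _
  refine dvd_trans ?_ h4
  rw [Ideal.map_pow]
  refine pow_dvd_pow_of_dvd ?_ 2
  rw [Ideal.dvd_iff_le, Ideal.map_le_iff_le_comap, hQ𝔓]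

/-- an extension with trivial inertia groups is unramified -/
theorem unr_of_inertia {k M : Type} [Field k] [NumberField k] [Field M] [NumberField M]
    [Algebra k M] [IsGalois k M] {N : ℕ} (h : ∀ Q : Ideal (𝓞 M), Q.IsPrime → Q ≠ ⊥ → Prm N Q →
      ∀ g : Gal(M/k), (∀ x : 𝓞 M, g • x - x ∈ Q) → g = 1) : Unr k M N := by
  intro Q hQ h0 hp h2
  set 𝔮 := Q.comap (algebraMap (𝓞 k) (𝓞 M)) with h𝔮d
  have h𝔮 : 𝔮.IsPrime := Ideal.comap_isPrime _ _
  have h𝔮0 : 𝔮 ≠ ⊥ := fun h => h0 (Ideal.eq_bot_of_comap_eq_bot h)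
  have hmax : 𝔮.IsMaximal := h𝔮.isMaximal h𝔮0
  have hover : Q.LiesOver 𝔮 := ⟨h𝔮d⟩
  have hle : 𝔮.map (algebraMap (𝓞 k) (𝓞 M)) ≤ Q := by
    rw [Ideal.map_le_iff_le_comap]
  have h1 : Nat.card (Q.inertia Gal(M/k)) = 1 := by
    rw [Nat.card_eq_one_iff_unique]
    refine ⟨⟨?_⟩, ⟨1⟩⟩
    rintro ⟨a, ha⟩ ⟨b, hb⟩
    rw [Subtype.mk.injEq, h Q hQ h0 hp a ha, h Q hQ h0 hp b hb]
  have hfin : Finite (𝓞 k ⧸ 𝔮) := Ideal.finiteQuotientOfFreeOfNeBot 𝔮 h𝔮0
  have hfin' : Finite 𝔮.ResidueField :=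
    Finite.of_surjective _ (Ideal.bijective_algebraMap_quotient_residueField 𝔮).2
  rw [Ideal.card_inertia_eq_ramificationIdxIn 𝔮 Q,
    Ideal.ramificationIdxIn_eq_ramificationIdx 𝔮 Q Gal(M/k),
    ← Ideal.ramificationIdx'_eq_ramificationIdx (p := 𝔮) (q := Q) h𝔮0] at h1
  exact (Ideal.ramificationIdx'_ne_one_iff hle).2 (Ideal.dvd_iff_le.1 h2) h1

/-- congruent roots of unity are equal -/
private theorem rc_root {R : Type} [CommRing R] [IsDomain R] {Q : Ideal R} [Q.IsPrime] {f : ℕ}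
    (hf : f ≠ 0) (hfQ : (f : R) ∉ Q) {z w : R} (hz : z ^ f = 1) (hw : w ^ f = 1)
    (h : w - z ∈ Q) : w = z := by
  by_contra hne
  have h1 := (Commute.all w z).geom_sum₂_mul f
  rw [hz, hw, sub_self] at h1
  have h2 : (∑ i ∈ Finset.range f, w ^ i * z ^ (f - 1 - i)) = 0 :=
    (mul_eq_zero.1 h1).resolve_right (sub_ne_zero.2 hne)
  have h3 : Ideal.Quotient.mk Q w = Ideal.Quotient.mk Q z := Ideal.Quotient.eq.2 h
  have h4 := congrArg (Ideal.Quotient.mk Q) h2
  rw [map_sum, map_zero] at h4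
  simp only [map_mul, map_pow, h3] at h4
  rw [geom_sum₂_self] at h4
  have h5 : (Ideal.Quotient.mk Q z) ^ (f - 1) * Ideal.Quotient.mk Q z = 1 := by
    rw [← pow_succ, Nat.sub_add_cancel (Nat.one_le_iff_ne_zero.2 hf), ← map_pow, hz, map_one]
  have h6 : ((f : ℕ) : R ⧸ Q) = 0 := by
    calc ((f : ℕ) : R ⧸ Q) = f * ((Ideal.Quotient.mk Q z) ^ (f - 1) * Ideal.Quotient.mk Q z) := by
          rw [h5, mul_one]
      _ = 0 := by rw [← mul_assoc, h4, zero_mul]
  apply hfQ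
  rw [← Ideal.Quotient.eq_zero_iff_mem, map_natCast]
  exact h6

theorem prm_notMem {k : Type} [Field k] [NumberField k] {m : ℕ} {𝔭 : Ideal (𝓞 k)}
    (hp : 𝔭.IsPrime) (h : Prm m 𝔭) : (m : 𝓞 k) ∉ 𝔭 := by
  intro hm
  unfold Prm at h
  rw [Ideal.isCoprime_iff_sup_eq] at h
  apply hp.ne_top
  rw [← h]
  exact (sup_eq_left.2 ((Ideal.span_singleton_le_iff_mem _).2 hm)).symm

/-- adjoining roots of unity -/
theorem unr_cyc {k M E : Type} [Field k] [NumberField k] [Field M] [NumberField M]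
    [Field E] [NumberField E] [Algebra k M] [Algebra k E] [Algebra M E] [IsScalarTower k M E]
    [IsGalois k M] [IsGalois k E] {N m : ℕ} (hm : m ≠ 0) [IsCyclotomicExtension {m} M E]
    (hu : Unr k M N) : Unr k E (N * m) := by
  have : NeZero m := ⟨hm⟩
  refine unr_of_inertia fun Q hQ h0 hp g hg => ?_
  obtain ⟨hpN, hpm⟩ := (prm_mul_left_iff (n := N) (m := m) Q).1 hp
  obtain ⟨ζ, hζ⟩ := IsCyclotomicExtension.exists_isPrimitiveRoot M E (Set.mem_singleton m) hm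
  set P := Q.comap (algebraMap (𝓞 M) (𝓞 E)) with hP
  have hP' : P.IsPrime := Ideal.comap_isPrime _ _
  have hP0 : P ≠ ⊥ := fun h => h0 (Ideal.eq_bot_of_comap_eq_bot h)
  have hNP : Prm N P := by
    have hmax : P.IsMaximal := hP'.isMaximal hP0
    rw [Prm, Ideal.isCoprime_iff_sup_eq]
    refine hmax.out.2 _ (lt_of_le_of_ne le_sup_left fun h1 => ?_)
    have h2 : (N : 𝓞 M) ∈ P := by
      rw [h1]
      exact Ideal.mem_sup_right (Ideal.mem_span_singleton_self _)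
    refine prm_notMem hQ hpN ?_
    rw [hP, Ideal.mem_comap, map_natCast] at h2
    exact h2
  have hcomm : ∀ x : M, algebraMap M E (g.restrictNormal M x) = g (algebraMap M E x) := fun x =>
    AlgEquiv.restrictNormal_commutes g M x
  have hM1 : g.restrictNormal M = 1 := by
    have hq : P.comap (algebraMap (𝓞 k) (𝓞 M)) ≠ ⊥ := fun h =>
      hP0 (Ideal.eq_bot_of_comap_eq_bot h)
    refine inertia_eq_one (F := k) (Ideal.comap_isPrime _ _) hq hP' rfl (hu P hP' hP0 hNP)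
      fun x => ?_
    rw [hP, Ideal.mem_comap, map_sub]
    have h1 := hg (algebraMap (𝓞 M) (𝓞 E) x)
    have h2 : algebraMap (𝓞 M) (𝓞 E) (g.restrictNormal M • x) =
        g • algebraMap (𝓞 M) (𝓞 E) x := by
      ext
      exact hcomm x
    rw [h2]
    exact h1
  have hM : ∀ x : M, g (algebraMap M E x) = algebraMap M E x := by
    intro x
    rw [← hcomm, hM1]
    rfl
  have hζg : g ζ = ζ := by
    have h1 : g • hζ.toInteger = hζ.toInteger := by
      refine rc_root hm (prm_notMem hQ hpm) hζ.toInteger_isPrimitiveRoot.pow_eq_one ?_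
        (hg hζ.toInteger)
      rw [← smul_pow', hζ.toInteger_isPrimitiveRoot.pow_eq_one, smul_one]
    exact congrArg (algebraMap (𝓞 E) E) h1
  let t : E ≃ₐ[M] E := AlgEquiv.ofRingEquiv (f := g.toRingEquiv) hM
  have ht : t = 1 := by
    have h8 := IsCyclotomicExtension.adjoin_primitive_root_eq_top (A := M) (B := E) hζ
    have h9 : (t : E →ₐ[M] E) = AlgHom.id M E := by
      apply AlgHom.ext_of_adjoin_eq_top h8
      intro x hx
      rw [Set.mem_singleton_iff] at hx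
      rw [hx]
      exact hζg
    ext x
    exact DFunLike.congr_fun h9 x
  ext x
  exact DFunLike.congr_fun ht x

/-- adjoining roots of unity -/
theorem exists_cyc {k M : Type} [Field k] [NumberField k] [Field M] [NumberField M] [Algebra k M]
    [IsGalois ℚ M] [IsAbelianGalois k M] {N : ℕ} (hu : Unr k M N) {m : ℕ} (hm : m ≠ 0) :
    ∃ (M' : Type) (_ : Field M') (_ : NumberField M') (_ : Algebra k M') (_ : Algebra M M')
      (_ : IsScalarTower k M M') (_ : IsGalois ℚ M') (_ : IsAbelianGalois k M') (ζ : M'),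
      IsPrimitiveRoot ζ m ∧ Unr k M' (N * m) := by
  have : NeZero m := ⟨hm⟩
  have hG : IsGalois ℚ (CyclotomicField m M) := CMG.isGalois_cyclotomic (M := M) hm
  have hA : IsAbelianGalois k (CyclotomicField m M) :=
    isAbelianGalois_cyclotomic k M m (CyclotomicField m M)
  obtain ⟨ζ, hζ⟩ := IsCyclotomicExtension.exists_isPrimitiveRoot M (CyclotomicField m M)
    (Set.mem_singleton m) hm
  exact ⟨CyclotomicField m M, inferInstance, inferInstance, inferInstance, inferInstance,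
    inferInstance, hG, hA, ζ, hζ, unr_cyc (M := M) hm hu⟩

/-- the action of Artin symbols on roots of unity -/
theorem art_root {k M : Type} [Field k] [NumberField k] [Field M] [NumberField M] [Algebra k M]
    [IsGalois ℚ M] [IsAbelianGalois k M] {N : ℕ} (hu : Unr k M N) {m : ℕ} (hm0 : m ≠ 0)
    (hm : m ∣ N) {ζ : M} (hζ : ζ ^ m = 1) {𝔟 : Ideal (𝓞 k)} (h0 : 𝔟 ≠ ⊥) (hp : Prm N 𝔟) :
    (art 𝔟 : Gal(M/k)) ζ = ζ ^ Ideal.absNorm 𝔟 :=
  CMG.artin_root ((artU_iff hu h0 hp _).2 rfl) hm0 ((prm_iff _).1 (hp.of_dvd hm)) hζ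

/-- compatibility of Artin symbols with restriction -/
theorem art_restrict {k M M' : Type} [Field k] [NumberField k] [Field M] [NumberField M]
    [Field M'] [NumberField M'] [Algebra k M] [Algebra k M'] [Algebra M M'] [IsScalarTower k M M']
    [IsGalois ℚ M] [IsAbelianGalois k M] [IsGalois ℚ M'] [IsAbelianGalois k M'] {N N' : ℕ}
    (hr : Unr k M N) (hr' : Unr k M' N') (hN : N ∣ N') {𝔟 : Ideal (𝓞 k)}
    (h0 : 𝔟 ≠ ⊥) (hp : Prm N' 𝔟) (x : M) :
    (art 𝔟 : Gal(M'/k)) (algebraMap M M' x) = algebraMap M M' ((art 𝔟 : Gal(M/k)) x) := by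
  have h1 : HasArtinSymbol 𝔟 (art 𝔟 : Gal(M'/k)) := (artU_iff hr' h0 hp _).2 rfl
  have h2 := (artU_iff hr h0 (hp.of_dvd hN) _).1 (hasArtin_restrict (M := M) h1)
  have h3 := AlgEquiv.restrictNormal_commutes (art 𝔟 : Gal(M'/k)) M x
  have h4 : (art 𝔟 : Gal(M'/k)).restrictNormal M = art 𝔟 := h2
  rw [h4] at h3
  exact h3.symm

end Pool.Agent.CMU
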