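import Pool.Agent.CMU.RTw
import Pool.Agent.CMU.FMain
import Pool.Agent.CMR.RMain

/-!
# R-MAIN every abelian extension has a modulus, final theorem

`exists_mod`: `step_abelian` for `L = M`: `a, B`. Let `c ∈ 𝓞 k`, `c ≠ 0`, `c ≡ 1` mod `N^a`; `(c) = ∏ 𝔭_i`, all prime to `N` (`prm_span`). `exists_near`: `𝔟_i` prime to `B`, `REq (N^a) 𝔟_i 𝔭_i`, `art 𝔟_i = art 𝔭_i`. `𝔟 = ∏ 𝔟_i` is prime to `B`, `REq (N^a) 𝔟 (c)` (`REq.mul`), so `REq (N^a) 𝔟 ⊤`, and `IsNm M N ⊤` (empty list), so `art 𝔟` fixes `M`: `art 𝔟 = 1`;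
`art (c) = ∏ art 𝔭_i = ∏ art 𝔟_i = art 𝔟 = 1` (`art_mul'`), `HasArtinSymbol (c) 1` by `art_iff'`. `ram`: `p ∣ N ∣ N^a`. `isStarkUnit_pow`: `zcoeff` depends only on the primes dividing `N` (see `fm_zeta` in `FMain.lean`). `exists_stark`: `exists_mod`, `exists_stark_iq` with `N^a`, `IsPrimePow (N^a) ↔ IsPrimePow N`.
-/

set_option autoImplicit false

noncomputable section

open NumberField Pool.Agent.StarkRQ Pool.Agent.CMR Pool.Agent.StarkU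
open scoped Pointwise

namespace Pool.Agent.CMU

/-- Artin reciprocity: every abelian extension of an imaginary quadratic field has a modulus -/
theorem exists_mod {k M : Type} [Field k] [NumberField k] (hk : IsIQ k) [Field M] [NumberField M]
    [Algebra k M] [IsGalois ℚ M] [IsAbelianGalois k M] {N : ℕ} (hN : 2 ≤ N)
    (hr : Unr k M N) :
    ∃ a : ℕ, 1 ≤ a ∧ IsModU k M (N ^ a) := by
  obtain ⟨a, B, ha, hB, hNB, H⟩ := step_abelian (k := k) (L := M) (M := M) hk hN hr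
  have key : ∀ 𝔞 : Ideal (𝓞 k), 𝔞 ≠ ⊥ → Prm N 𝔞 → ∃ 𝔟 : Ideal (𝓞 k), 𝔟 ≠ ⊥ ∧ Prm B 𝔟 ∧
      REq (N ^ a) 𝔟 𝔞 ∧ (art 𝔟 : Gal(M/k)) = art 𝔞 := by
    intro 𝔞
    induction 𝔞 using UniqueFactorizationMonoid.induction_on_prime with
    | h₁ => intro h; exact absurd rfl h
    | h₂ x hx =>
      intro _ _
      rw [Ideal.isUnit_iff] at hx
      refine ⟨⊤, top_ne_bot, ?_, ?_, ?_⟩
      · rw [Prm, Ideal.isCoprime_iff_sup_eq, top_sup_eq]
      · rw [hx]; exact REq.refl _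
      · rw [hx]
    | h₃ x p hx hp ih =>
      intro _ h2
      obtain ⟨h3, h4⟩ := (prm_mul_iff p x).1 h2
      obtain ⟨𝔟, hb0, hbB, hb, hb'⟩ := ih hx h4
      have hp0 : p ≠ ⊥ := hp.ne_zero
      obtain ⟨𝔠, hc0, hcB, hc, hc'⟩ := exists_near (M := M) hk hN hr
        (Ideal.isPrime_of_prime hp) hp0 h3 a hB
      refine ⟨𝔠 * 𝔟, mul_ne_zero hc0 hb0, (prm_mul_iff _ _).2 ⟨hcB, hbB⟩, hc.mul hb, ?_⟩
      rw [artU_mul' hr hc0 hb0 (hcB.of_dvd hNB) (hbB.of_dvd hNB), artU_mul' hr hp0 hx h3 h4, hc',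
        hb']
  refine ⟨a, ha, unr_of_dvd (dvd_pow_self N (by omega)) hr, fun c hc0 hc => ?_⟩
  have h0 : Ideal.span {c} ≠ ⊥ := by
    rw [Ne, Ideal.span_singleton_eq_bot]
    exact hc0
  have hp : Prm N (Ideal.span {c}) := (prm_span hc).of_dvd (dvd_pow_self N (by omega))
  obtain ⟨𝔟, hb0, hbB, hb, hb'⟩ := key _ h0 hp
  have h1 : REq (N ^ a) (Ideal.span {c}) ⊤ := by
    have := REq.span_mul hc0 hc (⊤ : Ideal (𝓞 k))
    rwa [Ideal.top_mul] at this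
  have h2 := H 𝔟 ⊤ hb0 hbB ⟨[], by rw [List.prod_nil, Ideal.one_eq_top], by simp⟩ (hb.trans h1)
  have h3 : (art 𝔟 : Gal(M/k)) = 1 := AlgEquiv.ext h2
  rw [artU_iff hr h0 hp, ← hb', h3]

/-- Stark's theorem for all abelian extensions of imaginary quadratic fields, unconditional -/
theorem exists_stark {k : Type} [Field k] [NumberField k] (hk : IsIQ k) {N : ℕ} (hN : 2 ≤ N)
    {M : Type} [Field M] [NumberField M] [Algebra k M] [IsGalois ℚ M] [IsAbelianGalois k M]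
    (ι : M →+* ℂ) (hr : Unr k M N) :
    ∃ η : M, IsStarkUnit k ι N η ∧ (¬ IsPrimePow N → IsIntegral ℤ η ∧ IsIntegral ℤ η⁻¹) := by
  obtain ⟨a, ha, hm⟩ := exists_mod (M := M) hk hN hr
  obtain ⟨η, h1, h2⟩ := exists_stark_iq hk (hN.trans (Nat.le_self_pow (by omega) N)) ι hm
  refine ⟨η, isStarkUnit_pow ha h1, fun h => h2 ?_⟩
  rwa [isPrimePow_pow_iff (by omega)]

end Pool.Agent.CMU
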