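import Pool.Agent.CMU.RCyc
import Pool.Agent.CMR.RStep

/-!
# R-STEP reciprocity up to finitely many primes for cyclic extensions

`unr_of_ram`: if `𝔓² ∣ (𝔓 ∩ k)𝓞_L` and `p` is the prime number in `𝔓` then for a prime `𝔔` of `M` over `𝔓`: `𝔔² ∣ p𝓞_M`, so `𝔔` divides the different of `M/ℚ` (`pow_sub_one_dvd_differentIdeal`), so `p ∣ discr M` (`absNorm` of the different is `|discr|`; see also the files of `StarkRQ`), so `p ∣ N`, a contradiction to `Prm N 𝔓`.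
`step_cyclic`: `a` from `exists_index`. `n = 6 N^a`, `exists_RD` for `M`: `F, B, X`, replace `B` by `B N` (`RD.mul`); `Algebra L F`, `IsScalarTower` through `M` (`Algebra L F := ((algebraMap M F).comp (algebraMap L M)).toAlgebra`). Let `𝒯` be the set of `g ∈ Gal(F/k)` such that `g` acts by some `𝔥` (`≠ ⊥`, prime to `n`) with `REq (N^a) 𝔥 𝔡` for some `𝔡` in `IsNm L N`: a submonoid, so a
subgroup. `Fix = {g : g fixes L} ⊆ 𝒯` (`acts_of_fix`), index `[L : k]`. Every `g ∈ Gal(F/k)` acts by some ideal prime to `n` (`acts_of_fix` with `L = k`). CLAIM `𝒯 = Fix`. Otherwise `[Gal(F/k) : 𝒯] < [L : k]`; let `τ_j` represent the cosets `τ_j 𝒯`, acting by `𝔯_j` (prime to `n`, so to `N`). For any `𝔠` prime to `N` choose `𝔠'` prime to `B` with `REq (N^a) 𝔠 𝔠'` (`exists_REq_prm`); by `exists_acts` some `τ` acts by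
`𝔠'`; `τ = τ_j g`, `g ∈ 𝒯` acting by `𝔥`, so `τ` acts by `𝔯_j 𝔥`, and `X 𝔠' = X (𝔯_j𝔥)` (take `𝔤 = ⊤`), `hX.inj`: `REq n 𝔠' (𝔯_j𝔥)`, so `REq (N^a) 𝔠 (𝔯_j 𝔡)`: this contradicts `exists_index` for `R = {𝔯_j}`. Finally for `𝔟 ~ 𝔠`, `𝔟` prime to `B`: `exists_acts`: `τ` acts by `𝔟` and `τ|_M = art 𝔟`; `τ ∈ 𝒯 = Fix`.
-/

set_option autoImplicit false

noncomputable section

open NumberField Pool.Agent.StarkRQ Pool.Agent.CMR Pool.Agent.StarkU
open scoped Pointwise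

namespace Pool.Agent.CMU

private theorem isNm_top {k L : Type} [Field k] [NumberField k] [Field L] [NumberField L]
    [Algebra k L] {N : ℕ} : IsNm L N (⊤ : Ideal (𝓞 k)) :=
  ⟨[], by rw [List.prod_nil, Ideal.one_eq_top], by simp⟩

private theorem isNm_mul {k L : Type} [Field k] [NumberField k] [Field L] [NumberField L]
    [Algebra k L] {N : ℕ} {𝔞 𝔟 : Ideal (𝓞 k)} (h : IsNm L N 𝔞) (h' : IsNm L N 𝔟) :
    IsNm L N (𝔞 * 𝔟) := by
  obtain ⟨l, hl, h1⟩ := h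
  obtain ⟨l', hl', h1'⟩ := h'
  refine ⟨l ++ l', by rw [List.prod_append, hl, hl'], ?_⟩
  intro 𝔭 h𝔭
  rcases List.mem_append.1 h𝔭 with h | h
  · exact h1 𝔭 h
  · exact h1' 𝔭 h

private theorem prm_top' {k : Type} [Field k] [NumberField k] {n : ℕ} :
    Prm n (⊤ : Ideal (𝓞 k)) := by
  rw [prm_iff, Ideal.absNorm_top]
  exact Nat.coprime_one_left n

private theorem fix_index {k L F : Type} [Field k] [NumberField k] [Field L] [NumberField L]
    [Field F] [NumberField F] [Algebra k L] [Algebra L F] [Algebra k F] [IsScalarTower k L F]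
    [IsGalois k F] : ∃ H : Subgroup Gal(F/k), H.index = Module.finrank k L ∧
      ∀ g : Gal(F/k), g ∈ H ↔ ∀ x : L, g (algebraMap L F x) = algebraMap L F x := by
  have hfin : FiniteDimensional k F := Module.Finite.of_restrictScalars_finite ℚ k F
  set E : IntermediateField k F := (IsScalarTower.toAlgHom k L F).fieldRange with hE
  refine ⟨E.fixingSubgroup, ?_, ?_⟩
  · have h1 : Nat.card E.fixingSubgroup = Module.finrank E F :=
      IsGalois.card_fixingSubgroup_eq_finrank E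
    have h2 : Nat.card Gal(F/k) = Module.finrank k F := IsGalois.card_aut_eq_finrank k F
    have h3 := Subgroup.card_mul_index E.fixingSubgroup
    have h4 := Module.finrank_mul_finrank k E F
    have h5 : Module.finrank k L = Module.finrank k E :=
      (AlgEquiv.ofInjectiveField (IsScalarTower.toAlgHom k L F)).toLinearEquiv.finrank_eq
    rw [h1, h2, ← h4, mul_comm] at h3
    rw [h5]
    exact Nat.eq_of_mul_eq_mul_right Module.finrank_pos h3
  · intro g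
    rw [IntermediateField.mem_fixingSubgroup_iff]
    constructor
    · intro h x
      exact h _ ⟨x, rfl⟩
    · rintro h y ⟨x, rfl⟩
      exact h x

/-- Artin reciprocity for cyclic `L/k`, up to finitely many primes -/
theorem step_cyclic {k L M : Type} [Field k] [NumberField k] (hk : IsIQ k) [Field L]
    [NumberField L] [Field M] [NumberField M] [Algebra k L] [Algebra L M] [Algebra k M]
    [IsScalarTower k L M] [IsGalois ℚ M] [IsAbelianGalois k M] [IsGalois k L] (σ : Gal(L/k))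
    (hσ : ∀ τ : Gal(L/k), τ ∈ Subgroup.zpowers σ) {N : ℕ} (hN : 2 ≤ N)
    (hu : Unr k M N) :
    ∃ a B : ℕ, 1 ≤ a ∧ B ≠ 0 ∧ N ∣ B ∧ ∀ 𝔟 𝔠 : Ideal (𝓞 k), 𝔟 ≠ ⊥ → Prm B 𝔟 →
      IsNm L N 𝔠 → REq (N ^ a) 𝔟 𝔠 →
      ∀ x : L, (art 𝔟 : Gal(M/k)) (algebraMap L M x) = algebraMap L M x := by
  classical
  have hN0 : N ≠ 0 := by omega
  obtain ⟨a, ha, hidx⟩ := exists_index hk σ hσ hN (unr_sub (k := k) (L := L) (M := M) hu)
  have hNa : N ^ a ≠ 0 := pow_ne_zero _ hN0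
  have hNa1 : 1 ≤ N ^ a := Nat.one_le_iff_ne_zero.2 hNa
  have hn5 : 5 ≤ 6 * N ^ a := by omega
  have hn2 : 2 ∣ 6 * N ^ a := ⟨3 * N ^ a, by ring⟩
  obtain ⟨F, iF, iNF, iAkF, iAMF, iTower, iGal, B₀, X, hX₀⟩ := exists_RD hk hn5 hn2 M
  set n : ℕ := 6 * N ^ a with hn
  obtain ⟨D, hD⟩ : ∃ D : ℕ, D = N * (discr M).natAbs := ⟨_, rfl⟩
  have hD0 : D ≠ 0 := by
    rw [hD]
    exact Nat.mul_ne_zero hN0 (Int.natAbs_ne_zero.2 (discr_ne_zero M))
  have hr : ∀ p : ℕ, p.Prime → (p : ℤ) ∣ discr M → p ∣ D := by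
    intro p _ h
    rw [hD]
    exact (Int.natCast_dvd.1 h).mul_left _
  have hX : RD n (B₀ * D) X := hX₀.mul hD0
  set B : ℕ := B₀ * D with hB
  have hB0 : B ≠ 0 := hX.B_ne
  have hDB : D ∣ B := ⟨B₀, by rw [hB, mul_comm]⟩
  have hNB : N ∣ B := (Dvd.intro _ hD.symm).trans hDB
  have hnB : n ∣ B := hX.dvd
  have hNan : N ^ a ∣ n := ⟨6, by rw [hn, mul_comm]⟩
  have hNn : N ∣ n := (dvd_pow_self N (by omega)).trans hNan
  let iALF : Algebra L F := ((algebraMap M F).comp (algebraMap L M)).toAlgebra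
  have t1 : IsScalarTower L M F := IsScalarTower.of_algebraMap_eq (fun x => rfl)
  have t2 : IsScalarTower k L F := IsScalarTower.of_algebraMap_eq (fun x => by
    rw [IsScalarTower.algebraMap_apply k M F, IsScalarTower.algebraMap_apply k L M]
    rfl)
  -- the subgroup `𝒯`
  let P : Gal(F/k) → Prop := fun g => ∃ 𝔥 : Ideal (𝓞 k), 𝔥 ≠ ⊥ ∧ Prm n 𝔥 ∧ Acts n X 𝔥 g ∧
    ∃ 𝔡 : Ideal (𝓞 k), IsNm L N 𝔡 ∧ REq (N ^ a) 𝔥 𝔡
  have hone : P 1 := ⟨⊤, top_ne_bot, prm_top', Acts.one, ⊤, isNm_top, REq.refl _⟩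
  have hmul : ∀ g h, P g → P h → P (g * h) := by
    rintro g h ⟨𝔥, h1, h2, h3, 𝔡, h4, h5⟩ ⟨𝔥', h1', h2', h3', 𝔡', h4', h5'⟩
    exact ⟨𝔥 * 𝔥', mul_ne_zero h1 h1', (prm_mul_iff _ _).2 ⟨h2, h2'⟩,
      Acts.mul h1' h2' h3 h3', 𝔡 * 𝔡', isNm_mul h4 h4', h5.mul h5'⟩
  have hpow : ∀ (g : Gal(F/k)) (m : ℕ), P g → P (g ^ m) := by
    intro g m h
    induction m with
    | zero => rw [pow_zero]; exact hone
    | succ m ih => rw [pow_succ]; exact hmul _ _ ih h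
  have hfin : FiniteDimensional k F := Module.Finite.of_restrictScalars_finite ℚ k F
  let T : Subgroup Gal(F/k) :=
    { carrier := {g | P g}
      mul_mem' := fun h h' => hmul _ _ h h'
      one_mem' := hone
      inv_mem' := fun {g} h => by
        have h1 : g⁻¹ = g ^ (Nat.card Gal(F/k) - 1) := by
          rw [inv_eq_iff_mul_eq_one, ← pow_succ', Nat.sub_add_cancel Nat.card_pos,
            pow_card_eq_one']
        rw [h1]
        exact hpow g _ h }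
  have hT : ∀ g, g ∈ T ↔ P g := fun g => Iff.rfl
  obtain ⟨H, hHi, hH⟩ := fix_index (k := k) (L := L) (F := F)
  have hHT : H ≤ T := by
    intro g hg
    obtain ⟨𝔥, h1, h2, h3, h4⟩ := acts_of_fix hX hNB g ((hH g).1 hg)
    exact ⟨𝔥, h1, h2.of_dvd hnB, h4, 𝔥, h3, REq.refl _⟩
  have hall : ∀ g : Gal(F/k), ∃ 𝔥 : Ideal (𝓞 k), 𝔥 ≠ ⊥ ∧ Prm B 𝔥 ∧ Acts n X 𝔥 g := by
    intro g
    obtain ⟨𝔥, h1, h2, -, h4⟩ := acts_of_fix (k := k) (L := k) hX hNB g (fun x => g.commutes x)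
    exact ⟨𝔥, h1, h2, h4⟩
  have hTH : T ≤ H := by
    by_contra hne
    have hlt : T.index < Module.finrank k L := by
      rw [← hHi]
      have hlt' : H < T := lt_of_le_of_ne hHT (fun h => hne (h ▸ le_rfl))
      have h1 := Subgroup.relIndex_mul_index hHT
      have h2 : 1 < H.relIndex T := by
        have h3 : H.relIndex T ≠ 1 := fun h => hne (Subgroup.relIndex_eq_one.1 h)
        have h4 : H.relIndex T ≠ 0 := fun h => by
          rw [h, zero_mul] at h1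
          exact Subgroup.index_ne_zero_of_finite h1.symm
        omega
      have h5 : 0 < T.index := Nat.pos_of_ne_zero Subgroup.index_ne_zero_of_finite
      rw [← h1]
      exact lt_mul_of_one_lt_left h5 h2
    choose 𝔯 h𝔯0 h𝔯p h𝔯 using hall
    have : Fintype (Gal(F/k) ⧸ T) := Fintype.ofFinite _
    let R : Finset (Ideal (𝓞 k)) := Finset.univ.image fun q : Gal(F/k) ⧸ T => 𝔯 q.out
    have hRc : R.card < Module.finrank k L := by
      refine lt_of_le_of_lt Finset.card_image_le ?_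
      rw [Finset.card_univ, ← Nat.card_eq_fintype_card]
      exact hlt
    obtain ⟨𝔠, h𝔠0, h𝔠p, h𝔠⟩ := hidx R (by
      intro 𝔰 h𝔰
      obtain ⟨q, -, rfl⟩ := Finset.mem_image.1 h𝔰
      exact ⟨h𝔯0 _, (h𝔯p _).of_dvd hNB⟩) hRc
    have h𝔠p' : Prm (N ^ a) 𝔠 := by
      rw [prm_iff] at h𝔠p ⊢
      exact h𝔠p.pow_right a
    obtain ⟨𝔟, h𝔟0, h𝔟p, h𝔟⟩ := exists_REq_prm hNa hB0 h𝔠0 h𝔠p'
    have h𝔟B : Prm B 𝔟 := h𝔟p.of_dvd (dvd_mul_left _ _)
    obtain ⟨τ, hτ, -⟩ := exists_acts (M := M) hr hX hDB h𝔟0 h𝔟B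
    set q : Gal(F/k) ⧸ T := (τ : Gal(F/k) ⧸ T) with hq
    have hmem : q.out⁻¹ * τ ∈ T := by
      rw [← QuotientGroup.eq, QuotientGroup.out_eq', hq]
    obtain ⟨𝔥, h1, h2, h3, 𝔡, h4, h5⟩ := (hT _).1 hmem
    have hact : Acts n X (𝔯 q.out * 𝔥) τ := by
      have := Acts.mul h1 h2 (h𝔯 q.out) h3
      rwa [mul_inv_cancel_left] at this
    have hreq : REq n 𝔟 (𝔯 q.out * 𝔥) := by
      refine hX.inj _ _ h𝔟0 (mul_ne_zero (h𝔯0 _) h1) (h𝔟B.of_dvd hnB)
        ((prm_mul_iff _ _).2 ⟨(h𝔯p _).of_dvd hnB, h2⟩) ?_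
      intro c hc
      have e1 := hτ ⊤ top_ne_bot prm_top' c hc
      have e2 := hact ⊤ top_ne_bot prm_top' c hc
      rw [Ideal.top_mul] at e1 e2
      rw [← e1, ← e2]
    refine h𝔠 (𝔯 q.out) (Finset.mem_image.2 ⟨q, Finset.mem_univ _, rfl⟩) 𝔡 h4 ?_
    exact (h𝔟.trans (hreq.of_dvd hNan)).trans ((REq.refl _).mul h5)
  refine ⟨a, B, ha, hB0, hNB, ?_⟩
  intro 𝔟 𝔠 h0 hp hnm hreq x
  obtain ⟨τ, hτ, hτ'⟩ := exists_acts (M := M) hr hX hDB h0 hp
  have hmem : τ ∈ H := hTH ⟨𝔟, h0, hp.of_dvd hnB, hτ, 𝔠, hnm, hreq⟩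
  have h1 := (hH τ).1 hmem x
  have h2 := hτ' (algebraMap L M x)
  rw [← IsScalarTower.algebraMap_apply L M F, h1, IsScalarTower.algebraMap_apply L M F] at h2
  exact (algebraMap M F).injective h2.symm

end Pool.Agent.CMU
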